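import Pool.Agent.H19.OM.Stm

set_option autoImplicit false

/-!
# The swap with Poisson smoothing (module SWA of project OM)
-/

namespace Pool.Agent.H53.OM

open Finset MeasureTheory ProbabilityTheory Pool.Agent.H19.OM
open scoped NNReal

theorem cc_one_le {a : ℝ} (ha : 0 < a) (m n : ℕ) : 1 ≤ cc a m n := by
  unfold cc
  have h1 : (fun j : ℕ => (m.choose j : ℝ) * (n.choose j) * j.factorial / a ^ j) 0 ≤
      ∑ j ∈ range (m + 1), (m.choose j : ℝ) * (n.choose j) * j.factorial / a ^ j :=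
    Finset.single_le_sum (f := fun j : ℕ => (m.choose j : ℝ) * (n.choose j) * j.factorial / a ^ j)
      (fun j _ => by positivity) (mem_range.2 (Nat.succ_pos m))
  refine le_trans (le_of_eq ?_) h1
  simp

theorem cc_le {a : ℝ} (ha : 0 < a) (m n : ℕ) : cc a m n ≤ Real.exp (m * n / a) := by
  unfold cc
  have hx : (0 : ℝ) ≤ m * n / a := by positivity
  refine le_trans (Finset.sum_le_sum fun j _ => ?_) (Real.sum_le_exp_of_nonneg hx (m + 1))
  have h1 : (m.choose j : ℝ) ≤ (m : ℝ) ^ j / j.factorial := Nat.choose_le_pow_div j m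
  have h2 : (n.choose j : ℝ) ≤ (n : ℝ) ^ j / j.factorial := Nat.choose_le_pow_div j n
  have hf : (0 : ℝ) < j.factorial := by exact_mod_cast j.factorial_pos
  have h3 : (m.choose j : ℝ) * (n.choose j) * j.factorial / a ^ j ≤
      ((m : ℝ) ^ j / j.factorial) * ((n : ℝ) ^ j / j.factorial) * j.factorial / a ^ j := by
    gcongr
  refine h3.trans (le_of_eq ?_)
  rw [div_pow, mul_pow]
  field_simp

theorem exp_bd {D K : ℝ} (h0 : 0 ≤ D) (hK : D ≤ K) : Real.exp D ≤ 1 + D + D ^ 2 * Real.exp K := by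
  have h1 : Real.exp D * (1 - D) ≤ 1 := by
    have h2 := Real.add_one_le_exp (-D)
    have h3 : Real.exp D * (1 - D) ≤ Real.exp D * Real.exp (-D) :=
      mul_le_mul_of_nonneg_left (by linarith) (Real.exp_pos D).le
    rw [← Real.exp_add, add_neg_cancel, Real.exp_zero] at h3
    exact h3
  have h4 : Real.exp D ≤ Real.exp K := Real.exp_le_exp.2 hK
  have h5 : D ^ 2 * Real.exp D ≤ D ^ 2 * Real.exp K := mul_le_mul_of_nonneg_left h4 (sq_nonneg D)
  have h6 : D * (Real.exp D * (1 - D)) ≤ D * 1 := mul_le_mul_of_nonneg_left h1 h0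
  nlinarith

theorem prod_ge {k : ℕ} (s : Finset (Fin k)) (b : Fin k → ℝ) (hb : ∀ i, 0 ≤ b i) :
    1 + ∑ i ∈ s, b i ≤ ∏ i ∈ s, (1 + b i) := by
  classical
  induction s using Finset.induction_on with
  | empty => simp
  | insert i s hi ih =>
    rw [Finset.sum_insert hi, Finset.prod_insert hi]
    have h1 : 0 ≤ ∑ i ∈ s, b i := Finset.sum_nonneg fun i _ => hb i
    have h2 := hb i
    nlinarith

theorem prod_le_exp {k : ℕ} (b : Fin k → ℝ) (hb : ∀ i, 0 ≤ b i) :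
    ∏ i, (1 + b i) ≤ Real.exp (∑ i, b i) := by
  rw [Real.exp_sum]
  refine Finset.prod_le_prod (fun i _ => by have := hb i; linarith) (fun i _ => ?_)
  have := Real.add_one_le_exp (b i)
  linarith

theorem alg (R : Finset ℕ) (hR : R.Nonempty) (k : ℕ) (c : Fin k → ℕ → ℕ → ℝ) (T : ℕ → ℕ → ℝ) (a B : ℝ)
    (ha : 0 < a) (h1 : ∀ i, ∀ r, ∀ s, 1 ≤ c i r s)
    (h3 : ∀ r ∈ R, ∀ s ∈ R, ∑ i, (c i r s - 1) ≤ 3 * T r s / a)
    (hT : ∀ r ∈ R, ∀ s ∈ R, T r s ≤ B * a) :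
    (∑ r ∈ R, ∑ s ∈ R, ∏ i, c i r s) / (R.card : ℝ) ^ 2 -
      2 * ((∑ r ∈ R, ∏ i, ∑ s ∈ R, c i r s) / ((R.card : ℝ) * (R.card : ℝ) ^ k)) +
      (∏ i, ∑ r ∈ R, ∑ s ∈ R, c i r s) / ((R.card : ℝ) ^ k) ^ 2 ≤
      18 * Real.exp (3 * B) * ((∑ r ∈ R, ∑ s ∈ R, (T r s) ^ 2) / (R.card : ℝ) ^ 2) / a ^ 2 := by
  have hn : (0 : ℝ) < R.card := by exact_mod_cast hR.card_pos
  obtain ⟨n, hndef⟩ : ∃ n : ℝ, n = (R.card : ℝ) := ⟨_, rfl⟩
  rw [← hndef] at hn ⊢
  obtain ⟨d, hd⟩ : ∃ d : Fin k → ℕ → ℕ → ℝ, d = fun i r s => c i r s - 1 := ⟨_, rfl⟩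
  have hd0 : ∀ i r s, 0 ≤ d i r s := fun i r s => by
    rw [hd]
    have := h1 i r s
    show 0 ≤ c i r s - 1
    linarith
  have hc : ∀ i r s, c i r s = 1 + d i r s := fun i r s => by
    rw [hd]
    ring
  obtain ⟨D, hD⟩ : ∃ D : ℕ → ℕ → ℝ, D = fun r s => ∑ i, d i r s := ⟨_, rfl⟩
  have hD0 : ∀ r s, 0 ≤ D r s := fun r s => by
    rw [hD]
    exact Finset.sum_nonneg fun i _ => hd0 i r s
  have hDT : ∀ r ∈ R, ∀ s ∈ R, D r s ≤ 3 * T r s / a := fun r hr s hs => by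
    rw [hD, hd]
    exact h3 r hr s hs
  have hDB : ∀ r ∈ R, ∀ s ∈ R, D r s ≤ 3 * B := fun r hr s hs => by
    refine (hDT r hr s hs).trans ?_
    rw [div_le_iff₀ ha]
    have := hT r hr s hs
    linarith
  obtain ⟨Θ, hΘ⟩ : ∃ Θ : ℝ, Θ = (∑ r ∈ R, ∑ s ∈ R, D r s) / n ^ 2 := ⟨_, rfl⟩
  obtain ⟨Q, hQ⟩ : ∃ Q : ℝ, Q = (∑ r ∈ R, ∑ s ∈ R, (D r s) ^ 2) / n ^ 2 := ⟨_, rfl⟩
  have hn2 : (0 : ℝ) < n ^ 2 := by positivity
  -- first term
  have hA1 : (∑ r ∈ R, ∑ s ∈ R, ∏ i, c i r s) / n ^ 2 ≤ 1 + Θ + Real.exp (3 * B) * Q := by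
    have h4 : ∑ r ∈ R, ∑ s ∈ R, ∏ i, c i r s ≤
        ∑ r ∈ R, ∑ s ∈ R, (1 + D r s + (D r s) ^ 2 * Real.exp (3 * B)) := by
      refine Finset.sum_le_sum fun r hr => Finset.sum_le_sum fun s hs => ?_
      rw [Finset.prod_congr rfl fun i _ => hc i r s]
      refine (prod_le_exp _ fun i => hd0 i r s).trans ?_
      have h5 := exp_bd (hD0 r s) (hDB r hr s hs)
      rw [hD] at h5 ⊢
      exact h5
    rw [div_le_iff₀ hn2]
    refine h4.trans (le_of_eq ?_)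
    rw [hΘ, hQ]
    simp only [Finset.sum_add_distrib, Finset.sum_const, nsmul_eq_mul, ← Finset.sum_mul, mul_one]
    rw [← hndef]
    field_simp
  -- second term
  have hA2 : 1 + Θ ≤ (∑ r ∈ R, ∏ i, ∑ s ∈ R, c i r s) / (n * n ^ k) := by
    have h4 : ∀ r, ∏ i, ∑ s ∈ R, c i r s = n ^ k * ∏ i, (1 + (∑ s ∈ R, d i r s) / n) := by
      intro r
      have h5 : ∀ i, ∑ s ∈ R, c i r s = n * (1 + (∑ s ∈ R, d i r s) / n) := by
        intro i
        rw [Finset.sum_congr rfl fun s _ => hc i r s, Finset.sum_add_distrib, Finset.sum_const,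
          nsmul_eq_mul, mul_one, ← hndef]
        field_simp
      rw [Finset.prod_congr rfl fun i _ => h5 i, Finset.prod_mul_distrib, Finset.prod_const,
        Finset.card_univ, Fintype.card_fin]
    rw [Finset.sum_congr rfl fun r _ => h4 r, ← Finset.mul_sum, mul_comm n (n ^ k),
      mul_div_mul_left _ _ (by positivity), le_div_iff₀ hn]
    have h6 : ∑ r ∈ R, (1 + ∑ i, (∑ s ∈ R, d i r s) / n) ≤
        ∑ r ∈ R, ∏ i, (1 + (∑ s ∈ R, d i r s) / n) :=
      Finset.sum_le_sum fun r _ => prod_ge _ _ fun i =>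
        div_nonneg (Finset.sum_nonneg fun s _ => hd0 i r s) hn.le
    refine le_trans (le_of_eq ?_) h6
    rw [hΘ, hD, Finset.sum_add_distrib, Finset.sum_const, nsmul_eq_mul, mul_one, ← hndef]
    have h7 : ∑ r ∈ R, ∑ i, (∑ s ∈ R, d i r s) / n = (∑ r ∈ R, ∑ s ∈ R, ∑ i, d i r s) / n := by
      rw [Finset.sum_div]
      refine Finset.sum_congr rfl fun r _ => ?_
      rw [← Finset.sum_div, Finset.sum_comm]
    rw [h7]
    field_simp
  -- third term
  have hΘ0 : 0 ≤ Θ := by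
    rw [hΘ]
    exact div_nonneg (Finset.sum_nonneg fun r _ => Finset.sum_nonneg fun s _ => hD0 r s) hn2.le
  have hcard2 : ∀ x : ℝ, ∑ r ∈ R, ∑ s ∈ R, x = n ^ 2 * x := by
    intro x
    rw [Finset.sum_const, Finset.sum_const, nsmul_eq_mul, nsmul_eq_mul, ← hndef]
    ring
  have hΘB : Θ ≤ 3 * B := by
    rw [hΘ, div_le_iff₀ hn2]
    refine (Finset.sum_le_sum fun r hr => Finset.sum_le_sum fun s hs => hDB r hr s hs).trans (le_of_eq ?_)
    rw [hcard2]
    ring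
  have hA3 : (∏ i, ∑ r ∈ R, ∑ s ∈ R, c i r s) / (n ^ k) ^ 2 ≤ 1 + Θ + Θ ^ 2 * Real.exp (3 * B) := by
    have h5 : ∀ i, ∑ r ∈ R, ∑ s ∈ R, c i r s = n ^ 2 * (1 + (∑ r ∈ R, ∑ s ∈ R, d i r s) / n ^ 2) := by
      intro i
      have h6 : ∑ r ∈ R, ∑ s ∈ R, c i r s = ∑ r ∈ R, ∑ s ∈ R, (1 : ℝ) + ∑ r ∈ R, ∑ s ∈ R, d i r s := by
        rw [← Finset.sum_add_distrib]
        refine Finset.sum_congr rfl fun r _ => ?_
        rw [← Finset.sum_add_distrib]
        exact Finset.sum_congr rfl fun s _ => hc i r s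
      rw [h6, hcard2]
      field_simp
    rw [Finset.prod_congr rfl fun i _ => h5 i, Finset.prod_mul_distrib, Finset.prod_const,
      Finset.card_univ, Fintype.card_fin]
    have h7 : (n ^ 2) ^ k = (n ^ k) ^ 2 := by ring
    rw [h7, mul_div_cancel_left₀ _ (by positivity)]
    refine (prod_le_exp _ fun i => div_nonneg
      (Finset.sum_nonneg fun r _ => Finset.sum_nonneg fun s _ => hd0 i r s) hn2.le).trans ?_
    have h8 : ∑ i, (∑ r ∈ R, ∑ s ∈ R, d i r s) / n ^ 2 = Θ := by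
      rw [hΘ, hD, ← Finset.sum_div, Finset.sum_comm]
      congr 1
      exact Finset.sum_congr rfl fun r _ => Finset.sum_comm
    rw [h8]
    exact exp_bd hΘ0 hΘB
  have hΘQ : Θ ^ 2 ≤ Q := by
    have h4 : (∑ p ∈ R ×ˢ R, D p.1 p.2) ^ 2 ≤ ((R ×ˢ R).card : ℝ) * ∑ p ∈ R ×ˢ R, (D p.1 p.2) ^ 2 :=
      sq_sum_le_card_mul_sum_sq
    rw [Finset.sum_product, Finset.sum_product, Finset.card_product] at h4
    push_cast at h4
    rw [← hndef] at h4
    rw [hΘ, hQ, div_pow, div_le_div_iff₀ (by positivity) hn2]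
    nlinarith
  have hQT : Q ≤ 9 * ((∑ r ∈ R, ∑ s ∈ R, (T r s) ^ 2) / n ^ 2) / a ^ 2 := by
    have h4 : ∑ r ∈ R, ∑ s ∈ R, (D r s) ^ 2 ≤ ∑ r ∈ R, ∑ s ∈ R, 9 / a ^ 2 * (T r s) ^ 2 := by
      refine Finset.sum_le_sum fun r hr => Finset.sum_le_sum fun s hs => ?_
      have h5 := pow_le_pow_left₀ (hD0 r s) (hDT r hr s hs) 2
      refine h5.trans (le_of_eq ?_)
      rw [div_pow, mul_pow]
      ring
    have h6 : ∑ r ∈ R, ∑ s ∈ R, 9 / a ^ 2 * (T r s) ^ 2 = 9 / a ^ 2 * ∑ r ∈ R, ∑ s ∈ R, (T r s) ^ 2 := by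
      rw [Finset.mul_sum]
      exact Finset.sum_congr rfl fun r _ => by rw [Finset.mul_sum]
    rw [hQ]
    refine (div_le_div_of_nonneg_right (h4.trans h6.le) hn2.le).trans (le_of_eq ?_)
    ring
  have hE := Real.exp_pos (3 * B)
  have h9 : Real.exp (3 * B) * Θ ^ 2 ≤ Real.exp (3 * B) * Q := mul_le_mul_of_nonneg_left hΘQ hE.le
  have h10 : Real.exp (3 * B) * Q ≤ Real.exp (3 * B) *
      (9 * ((∑ r ∈ R, ∑ s ∈ R, (T r s) ^ 2) / n ^ 2) / a ^ 2) := mul_le_mul_of_nonneg_left hQT hE.le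
  calc _ ≤ (1 + Θ + Real.exp (3 * B) * Q) - 2 * (1 + Θ) + (1 + Θ + Θ ^ 2 * Real.exp (3 * B)) := by linarith
    _ ≤ 2 * (Real.exp (3 * B) * Q) := by linarith
    _ ≤ 2 * (Real.exp (3 * B) * (9 * ((∑ r ∈ R, ∑ s ∈ R, (T r s) ^ 2) / n ^ 2) / a ^ 2)) := by linarith
    _ = _ := by ring

theorem exp_three {x : ℝ} (h0 : 0 ≤ x) (h1 : x ≤ 1) : Real.exp x ≤ 1 + 3 * x := by
  have h2 : Real.exp x * (1 - x) ≤ 1 := by
    have h2 := Real.add_one_le_exp (-x)
    have h3 : Real.exp x * (1 - x) ≤ Real.exp x * Real.exp (-x) :=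
      mul_le_mul_of_nonneg_left (by linarith) (Real.exp_pos x).le
    rw [← Real.exp_add, add_neg_cancel, Real.exp_zero] at h3
    exact h3
  have h3 : Real.exp x ≤ 3 := by
    have h4 := Real.exp_le_exp.2 h1
    have h5 := Real.exp_one_lt_d9
    linarith
  nlinarith

section

variable {k : ℕ}

theorem aesm (a : ℝ≥0) (f : (Fin k → ℕ) → ℝ) :
    AEStronglyMeasurable f (Measure.pi (fun _ : Fin k => poissonMeasure a)) :=
  (Measurable.of_discrete (f := f)).aestronglyMeasurable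

theorem bd_int (a : ℝ≥0) {f : (Fin k → ℕ) → ℝ} {C : ℝ} (hf : ∀ z, |f z| ≤ C) :
    Integrable f (Measure.pi (fun _ : Fin k => poissonMeasure a)) :=
  Integrable.of_bound (aesm a f) C (Filter.Eventually.of_forall fun z => by
    rw [Real.norm_eq_abs]
    exact hf z)

theorem lin (shi : S_SHI) {a : ℝ≥0} (ha : 0 < a) {φ : (Fin k → ℕ) → ℝ} (hφ : Bd φ) {α : Type}
    (A : Finset α) (v : α → Fin k → ℕ) (N : ℝ) :
    Integrable (fun w => φ w * ((∑ r ∈ A, gg a (v r) w) / N))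
      (Measure.pi (fun _ : Fin k => poissonMeasure a)) ∧
    P a (fun w => (∑ r ∈ A, φ (w + v r)) / N) = P a (fun w => φ w * ((∑ r ∈ A, gg a (v r) w) / N)) := by
  have h0 : (fun w => φ w * ((∑ r ∈ A, gg a (v r) w) / N)) =
      fun w => (∑ r ∈ A, φ w * gg a (v r) w) / N := by
    funext w
    rw [← mul_div_assoc, Finset.mul_sum]
  have h1 : ∀ r ∈ A, Integrable (fun w => φ w * gg a (v r) w)
      (Measure.pi (fun _ : Fin k => poissonMeasure a)) := fun r _ => (shi a ha k (v r) φ hφ).1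
  have h2 : ∀ r ∈ A, Integrable (fun w => φ (w + v r))
      (Measure.pi (fun _ : Fin k => poissonMeasure a)) := fun r _ => bd_int a fun z => hφ _
  rw [h0]
  refine ⟨(integrable_finsetSum A h1).div_const N, ?_⟩
  unfold P
  rw [integral_div, integral_div, integral_finsetSum A h2, integral_finsetSum A h1]
  congr 1
  exact Finset.sum_congr rfl fun r _ => (shi a ha k (v r) φ hφ).2

theorem pro (gra : S_GRA) {a : ℝ≥0} (ha : 0 < a) {α β : Type} (A : Finset α) (v : α → Fin k → ℕ)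
    (N : ℝ) (A' : Finset β) (v' : β → Fin k → ℕ) (N' : ℝ) :
    Integrable (fun w => ((∑ r ∈ A, gg a (v r) w) / N) * ((∑ s ∈ A', gg a (v' s) w) / N'))
      (Measure.pi (fun _ : Fin k => poissonMeasure a)) ∧
    ∫ w, ((∑ r ∈ A, gg a (v r) w) / N) * ((∑ s ∈ A', gg a (v' s) w) / N')
      ∂(Measure.pi (fun _ : Fin k => poissonMeasure a)) =
      (∑ r ∈ A, ∑ s ∈ A', ∏ i, cc a (v r i) (v' s i)) / (N * N') := by
  have h0 : (fun w => ((∑ r ∈ A, gg a (v r) w) / N) * ((∑ s ∈ A', gg a (v' s) w) / N')) =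
      fun w => (∑ r ∈ A, ∑ s ∈ A', gg a (v r) w * gg a (v' s) w) / (N * N') := by
    funext w
    rw [div_mul_div_comm, Finset.sum_mul_sum]
  have h1 : ∀ r ∈ A, ∀ s ∈ A', Integrable (fun w => gg a (v r) w * gg a (v' s) w)
      (Measure.pi (fun _ : Fin k => poissonMeasure a)) := fun r _ s _ => (gra a ha k (v r) (v' s)).1
  have h2 : ∀ r ∈ A, Integrable (fun w => ∑ s ∈ A', gg a (v r) w * gg a (v' s) w)
      (Measure.pi (fun _ : Fin k => poissonMeasure a)) := fun r hr => integrable_finsetSum A' (h1 r hr)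
  rw [h0]
  refine ⟨(integrable_finsetSum A h2).div_const _, ?_⟩
  rw [integral_div, integral_finsetSum A h2]
  congr 1
  refine Finset.sum_congr rfl fun r hr => ?_
  rw [integral_finsetSum A' (h1 r hr)]
  exact Finset.sum_congr rfl fun s _ => (gra a ha k (v r) (v' s)).2

theorem cs {μ : Measure (Fin k → ℕ)} [IsProbabilityMeasure μ] {ψ : (Fin k → ℕ) → ℝ} (h : Integrable ψ μ)
    (h2 : Integrable (fun w => (ψ w) ^ 2) μ) : (∫ w, ψ w ∂μ) ^ 2 ≤ ∫ w, (ψ w) ^ 2 ∂μ := by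
  obtain ⟨m, hm⟩ : ∃ m : ℝ, m = ∫ w, ψ w ∂μ := ⟨_, rfl⟩
  have h0 : 0 ≤ ∫ w, (ψ w - m) ^ 2 ∂μ := integral_nonneg fun w => sq_nonneg _
  have e : ∫ w, (ψ w - m) ^ 2 ∂μ = ∫ w, (ψ w) ^ 2 ∂μ - m ^ 2 := by
    have h3 : (fun w => (ψ w - m) ^ 2) = fun w => ((ψ w) ^ 2 - (2 * m) * ψ w) + m ^ 2 := by
      funext w
      ring
    have h4 : Integrable (fun w => (ψ w) ^ 2 - (2 * m) * ψ w) μ := h2.sub (h.const_mul _)
    rw [h3, integral_add h4 (integrable_const _), integral_sub h2 (h.const_mul _),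
      integral_const_mul, integral_const, ← hm]
    simp
    ring
  rw [← hm]
  linarith

end

theorem t_SWA (shi : S_SHI) (gra : S_GRA) : S_SWA := by
  classical
  intro R hR k L X a B ha hXL hL hB φ hφ
  have haR : (0 : ℝ) < a := by exact_mod_cast ha
  have hn : (0 : ℝ) < R.card := by exact_mod_cast hR.card_pos
  -- the algebra
  have halg := alg R hR k (fun i r s => cc a (X r i) (X s i)) (fun r s => ∑ i, (X r i : ℝ) * X s i) a B haR
    (fun i r s => cc_one_le haR _ _) (by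
      intro r hr s hs
      rw [Finset.mul_sum, Finset.sum_div]
      refine Finset.sum_le_sum fun i _ => ?_
      have h1 := cc_le haR (X r i) (X s i)
      have hx0 : (0 : ℝ) ≤ (X r i : ℝ) * X s i / a := by positivity
      have hx1 : (X r i : ℝ) * X s i / a ≤ 1 := by
        rw [div_le_one haR]
        have h2 : (X r i : ℝ) ≤ L := by exact_mod_cast hXL r hr i
        have h3 : (X s i : ℝ) ≤ L := by exact_mod_cast hXL s hs i
        have h4 : (0 : ℝ) ≤ X r i := Nat.cast_nonneg _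
        have h5 : (0 : ℝ) ≤ X s i := Nat.cast_nonneg _
        nlinarith
      have h2 := exp_three hx0 hx1
      have h3 : 3 * ((X r i : ℝ) * X s i) / a = 3 * ((X r i : ℝ) * X s i / a) := by ring
      rw [h3]
      linarith) hB
  beta_reduce at halg
  -- the densities
  obtain ⟨hi1, he1⟩ := lin shi ha hφ R X (R.card : ℝ)
  obtain ⟨hi2, he2⟩ := lin shi ha hφ (Fintype.piFinset (fun _ : Fin k => R)) (fun r i => X (r i) i)
    ((R.card : ℝ) ^ k)
  rw [he1, he2]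
  obtain ⟨G, hG⟩ : ∃ G : (Fin k → ℕ) → ℝ, G = fun w => (∑ r ∈ R, gg a (X r) w) / (R.card : ℝ) := ⟨_, rfl⟩
  obtain ⟨G', hG'⟩ : ∃ G' : (Fin k → ℕ) → ℝ, G' = fun w =>
    (∑ r ∈ Fintype.piFinset (fun _ : Fin k => R), gg a (fun i => X (r i) i) w) / (R.card : ℝ) ^ k := ⟨_, rfl⟩
  obtain ⟨j11, e11⟩ := pro gra ha R X (R.card : ℝ) R X (R.card : ℝ)
  obtain ⟨j12, e12⟩ := pro gra ha R X (R.card : ℝ) (Fintype.piFinset (fun _ : Fin k => R))
    (fun r i => X (r i) i) ((R.card : ℝ) ^ k)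
  obtain ⟨j22, e22⟩ := pro gra ha (Fintype.piFinset (fun _ : Fin k => R))
    (fun r i => X (r i) i) ((R.card : ℝ) ^ k) (Fintype.piFinset (fun _ : Fin k => R))
    (fun r i => X (r i) i) ((R.card : ℝ) ^ k)
  have hg : ∀ w, (∑ r ∈ R, gg a (X r) w) / (R.card : ℝ) = G w := fun w => by rw [hG]
  have hg' : ∀ w, (∑ r ∈ Fintype.piFinset (fun _ : Fin k => R), gg a (fun i => X (r i) i) w) /
      (R.card : ℝ) ^ k = G' w := fun w => by rw [hG']
  simp only [hg, hg'] at hi1 hi2 j11 j12 j22 e11 e12 e22 ⊢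
  -- the scalar products
  have s12 : ∑ r ∈ R, ∑ s ∈ Fintype.piFinset (fun _ : Fin k => R), ∏ i, cc a (X r i) (X (s i) i) =
      ∑ r ∈ R, ∏ i, ∑ s ∈ R, cc a (X r i) (X s i) := by
    refine Finset.sum_congr rfl fun r _ => ?_
    rw [Finset.prod_univ_sum]
  have s22 : ∑ r ∈ Fintype.piFinset (fun _ : Fin k => R), ∑ s ∈ Fintype.piFinset (fun _ : Fin k => R),
      ∏ i, cc a (X (r i) i) (X (s i) i) = ∏ i, ∑ r ∈ R, ∑ s ∈ R, cc a (X r i) (X s i) := by
    rw [Finset.prod_univ_sum]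
    refine Finset.sum_congr rfl fun r _ => ?_
    rw [Finset.prod_univ_sum]
  rw [s12] at e12
  rw [s22] at e22
  -- Cauchy-Schwarz
  obtain ⟨ψ, hψ⟩ : ∃ ψ : (Fin k → ℕ) → ℝ, ψ = fun w => φ w * (G w - G' w) := ⟨_, rfl⟩
  have hψi : Integrable ψ (Measure.pi (fun _ : Fin k => poissonMeasure a)) := by
    have h1 : ψ = fun w => φ w * G w - φ w * G' w := by
      rw [hψ]
      funext w
      ring
    rw [h1]
    exact hi1.sub hi2
  have hdiff : P a (fun w => φ w * G w) - P a (fun w => φ w * G' w) =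
      ∫ w, ψ w ∂(Measure.pi (fun _ : Fin k => poissonMeasure a)) := by
    unfold P
    rw [← integral_sub hi1 hi2, hψ]
    congr 1
    funext w
    ring
  have hsqi : Integrable (fun w => (G w - G' w) ^ 2) (Measure.pi (fun _ : Fin k => poissonMeasure a)) := by
    have h1 : (fun w => (G w - G' w) ^ 2) = fun w => (G w * G w - 2 * (G w * G' w)) + G' w * G' w := by
      funext w
      ring
    rw [h1]
    exact (j11.sub (j12.const_mul 2)).add j22
  have hsq : ∫ w, (G w - G' w) ^ 2 ∂(Measure.pi (fun _ : Fin k => poissonMeasure a)) ≤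
      18 * Real.exp (3 * B) * ((∑ r ∈ R, ∑ s ∈ R, (∑ i, (X r i : ℝ) * X s i) ^ 2) / (R.card : ℝ) ^ 2) /
        (a : ℝ) ^ 2 := by
    have h1 : (fun w => (G w - G' w) ^ 2) = fun w => (G w * G w - 2 * (G w * G' w)) + G' w * G' w := by
      funext w
      ring
    have h2 : Integrable (fun w => G w * G w - 2 * (G w * G' w))
        (Measure.pi (fun _ : Fin k => poissonMeasure a)) := j11.sub (j12.const_mul 2)
    rw [h1, integral_add h2 j22, integral_sub j11 (j12.const_mul 2),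
      integral_const_mul, e11, e12, e22, ← pow_two, ← pow_two]
    exact halg
  have hψ2 : ∀ w, (ψ w) ^ 2 ≤ (G w - G' w) ^ 2 := by
    intro w
    rw [hψ]
    show (φ w * (G w - G' w)) ^ 2 ≤ _
    rw [mul_pow]
    have h1 : (φ w) ^ 2 ≤ 1 := by
      have h2 := hφ w
      rw [← sq_abs]
      exact pow_le_one₀ (abs_nonneg _) h2
    have h3 := sq_nonneg (G w - G' w)
    nlinarith
  have hψ2i : Integrable (fun w => (ψ w) ^ 2) (Measure.pi (fun _ : Fin k => poissonMeasure a)) := by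
    refine hsqi.mono' (aesm a _) (Filter.Eventually.of_forall fun w => ?_)
    rw [Real.norm_eq_abs, abs_of_nonneg (sq_nonneg _)]
    exact hψ2 w
  have hfin : (∫ w, ψ w ∂(Measure.pi (fun _ : Fin k => poissonMeasure a))) ^ 2 ≤
      18 * Real.exp (3 * B) * ((∑ r ∈ R, ∑ s ∈ R, (∑ i, (X r i : ℝ) * X s i) ^ 2) / (R.card : ℝ) ^ 2) /
        (a : ℝ) ^ 2 :=
    (cs hψi hψ2i).trans ((integral_mono hψ2i hsqi hψ2).trans hsq)
  rw [hdiff, le_div_iff₀ haR]
  refine Real.le_sqrt_of_sq_le ?_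
  rw [mul_pow, sq_abs]
  rw [le_div_iff₀ (by positivity)] at hfin
  exact hfin

end Pool.Agent.H53.OM
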